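import Pool.Agent.Lib.MP_182bbb_co.H5.Basic

/-! # MP_182bbb_co : 3-uniform tight trees with attachments of size 0 or 2 -/

open Finset

namespace MP_182bbb_co.DU

/-- `H` is a 3-uniform tight tree with a listing `e_0, ..., e_k` in which every attachment
`e_i ∩ (e_0 ∪ ... ∪ e_{i-1})`, `i ≥ 1`, has `0` or `2` elements and lies in an earlier edge,
exactly `z` of them being empty. -/
def IsTree02 {α : Type*} [DecidableEq α] (H : Finset (Finset α)) (z : ℕ) : Prop :=
  ∃ (k : ℕ) (e : Fin (k + 1) → Finset α), Function.Injective e ∧ univ.image e = H ∧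
    (∀ i, (e i).card = 3) ∧
    (∀ i : Fin (k + 1), 0 < (i : ℕ) →
      (e i ∩ (Finset.Iio i).biUnion e = ∅ ∨ (e i ∩ (Finset.Iio i).biUnion e).card = 2) ∧
      ∃ j < i, e i ∩ (Finset.Iio i).biUnion e ⊆ e j) ∧
    (univ.filter fun i : Fin (k + 1) =>
      0 < (i : ℕ) ∧ e i ∩ (Finset.Iio i).biUnion e = ∅).card = z

end MP_182bbb_co.DU
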