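import Pool.Agent.Lib.MP_182bbb_co.DU.H65.Union
import Pool.Agent.Lib.MP_182bbb_co.DU.H65.Defs
import Pool.Agent.Lib.MP_182bbb_co.AR.Final
import Pool.Agent.Lib.MP_182bbb_co.TT.H5.Main

/-!
# MP_182bbb_co : forests of strict tight trees, forests of books
-/

open Finset MP_182bbb_co.H5 Filter Topology

namespace MP_182bbb_co.DU

universe u

variable {α : Type u} [DecidableEq α]

/-- `ex_r(n, (∂H)^+) = (l + o(1)) C(n, r-1)`, the lower bound coming from stars. -/
def Sol (r : ℕ) (H : Finset (Finset α)) (l : ℕ) : Prop :=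
  SF r (expansion 1 (H5.shadow H)) l ∧ UB r (expansion 1 (H5.shadow H)) l

lemma Sol.tendsto {r : ℕ} (hr : 2 ≤ r) {H : Finset (Finset α)} {l : ℕ} (h : Sol r H l) :
    Tendsto (fun n : ℕ => (ex r n (expansion 1 (H5.shadow H)) : ℝ) / (n.choose (r - 1) : ℝ)) atTop
      (𝓝 (l : ℝ)) := by
  obtain ⟨hs, hu⟩ := h
  have hlow : ∀ n : ℕ, l * (n - l).choose (r - 1) ≤ ex r n (expansion 1 (H5.shadow H)) := by
    intro n
    rcases Nat.lt_or_ge n l with hn | hn
    · have : n - l = 0 := by omega
      rw [this, Nat.choose_eq_zero_of_lt (by omega)]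
      simp
    · obtain ⟨L, _, hLc⟩ := Finset.exists_subset_card_eq (s := (univ : Finset (Fin n)))
        (n := l) (by rw [card_univ, Fintype.card_fin]; exact hn)
      have h1 := AR.starcard (Fin n) r L (by omega)
      rw [Fintype.card_fin, hLc] at h1
      rw [← h1]
      refine le_ex _ ?_ (hs n L hLc.le)
      intro e he
      exact (mem_powersetCard.1 (mem_filter.1 he).1).2
  rw [tendsto_order]
  constructor
  · intro a ha
    have h1 := (tendsto_order.1 (AR.lim r l hr)).1 a ha
    filter_upwards [h1] with n hn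
    refine hn.trans_le ?_
    refine div_le_div_of_nonneg_right ?_ (Nat.cast_nonneg _)
    exact_mod_cast hlow n
  · intro b hb
    obtain ⟨n0, hn0⟩ := hu ((b - l) / 2) (by linarith)
    filter_upwards [eventually_ge_atTop (max n0 r)] with n hn
    have h1 := hn0 n ((le_max_left _ _).trans hn)
    have h2 := choose_pos_of_le (r := r) ((le_max_right _ _).trans hn)
    rw [div_lt_iff₀ (by linarith)]
    refine h1.trans_lt ?_
    exact mul_lt_mul_of_pos_right (by linarith) (by linarith)

lemma Sol.union {r : ℕ} (hr : 2 ≤ r) {H1 H2 : Finset (Finset α)} (hu1 : IsUniform r H1)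
    (hd : Disjoint (verts H1) (verts H2)) {l1 l2 : ℕ} (h1 : Sol r H1 l1) (h2 : Sol r H2 l2) :
    Sol r (H1 ∪ H2) (l1 + l2 + 1) := by
  have hde := disjoint_exp hr hu1 hd
  unfold Sol
  rw [shadow_union, expansion_union]
  refine ⟨SF.union hde h1.1 h2.1, ?_⟩
  have h3 := UB.union hr hde (Nat.cast_nonneg l1) (Nat.cast_nonneg l2) h1.2 h2.2
  push_cast
  exact h3

/-- Disjoint unions of finitely many hypergraphs. -/
lemma Sol.biUnion {r : ℕ} (hr : 2 ≤ r) {ι : Type*} (s : Finset ι) (hs : s.Nonempty)
    (H : ι → Finset (Finset α)) (l : ι → ℕ) (hu : ∀ i ∈ s, IsUniform r (H i))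
    (hd : ∀ i ∈ s, ∀ j ∈ s, i ≠ j → Disjoint (verts (H i)) (verts (H j)))
    (h : ∀ i ∈ s, Sol r (H i) (l i)) : Sol r (s.biUnion H) (∑ i ∈ s, (l i + 1) - 1) := by
  classical
  induction hs using Finset.Nonempty.cons_induction with
  | singleton i =>
    rw [singleton_biUnion, sum_singleton, Nat.add_sub_cancel]
    exact h i (mem_singleton_self i)
  | cons i s hi hs ih =>
    rw [cons_eq_insert, biUnion_insert, sum_insert hi]
    have h1 := ih (fun j hj => hu j (mem_cons_of_mem hj))
      (fun j hj k hk hjk => hd j (mem_cons_of_mem hj) k (mem_cons_of_mem hk) hjk)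
      (fun j hj => h j (mem_cons_of_mem hj))
    have hdis : Disjoint (verts (H i)) (verts (s.biUnion H)) := by
      rw [disjoint_left]
      intro x hx hx2
      obtain ⟨e, he, hxe⟩ := mem_verts.1 hx2
      obtain ⟨j, hj, hej⟩ := mem_biUnion.1 he
      have hij : i ≠ j := by
        rintro rfl
        exact hi hj
      exact (disjoint_left.1 (hd i (mem_cons_self i s) j (mem_cons_of_mem hj) hij)) hx
        (mem_verts.2 ⟨e, hej, hxe⟩)
    have h2 := Sol.union hr (hu i (mem_cons_self i s)) hdis (h i (mem_cons_self i s)) h1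
    have h3 : l i + (∑ j ∈ s, (l j + 1) - 1) + 1 = l i + 1 + ∑ j ∈ s, (l j + 1) - 1 := by
      obtain ⟨j, hj⟩ := hs
      have h4 : l j + 1 ≤ ∑ j ∈ s, (l j + 1) :=
        Finset.single_le_sum (f := fun j => l j + 1) (fun _ _ => Nat.zero_le _) hj
      omega
    rwa [h3] at h2

/-! ### The two kinds of pieces -/

/-- Books. -/
lemma sol_book {r : ℕ} (hr : 2 ≤ r) {H : Finset (Finset α)} (hH : AR.IsBook r H) :
    Sol r H H.card := by
  refine ⟨fun n L hL => AR.lower α (Fin n) r H L hr hH.isStrictTree hL, ?_⟩
  intro ε hε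
  refine ⟨0, fun n _ => ?_⟩
  have h1 : ex r n (expansion 1 (H5.shadow H)) ≤ H.card * n.choose (r - 1) := by
    refine ex_le ?_
    intro G hG hfree
    exact (AR.bookup_all α (Fin n) r H G (by omega) hH hG hfree).trans
      (Nat.mul_le_mul_left _ (AR.card_shadow_le hG))
  have h2 : (ex r n (expansion 1 (H5.shadow H)) : ℝ) ≤ H.card * (n.choose (r - 1) : ℝ) := by
    exact_mod_cast h1
  refine h2.trans (mul_le_mul_of_nonneg_right (by linarith) (Nat.cast_nonneg _))

/-- The two definitions of strict trees for `r = 3`. -/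
lemma strict_three {H : Finset (Finset α)} (hH : AR.IsStrictTree 3 H) : TT.IsStrictTree H := by
  obtain ⟨k, e, h1, h2, h3, h4⟩ := hH
  exact ⟨k, e, h1, h2, h3, fun i hi => ⟨by have := (h4 i hi).1; omega, (h4 i hi).2⟩⟩

/-- Strict 3-uniform tight trees. -/
lemma sol_tree {H : Finset (Finset α)} (hH : AR.IsStrictTree 3 H) : Sol 3 H H.card := by
  refine ⟨fun n L hL => AR.lower α (Fin n) 3 H L (by norm_num) hH hL, ?_⟩
  intro ε hε
  have h1 := (TT.strict_tree_limit (strict_three hH)).2
  have h2 := (tendsto_order.1 h1).2 (H.card + ε) (by linarith)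
  obtain ⟨n0, hn0⟩ := eventually_atTop.1 h2
  refine ⟨max n0 3, fun n hn => ?_⟩
  have h3 := hn0 n ((le_max_left _ _).trans hn)
  have h4 := choose_pos_of_le (r := 3) ((le_max_right _ _).trans hn)
  have h5 : (3 : ℕ) - 1 = 2 := rfl
  rw [h5] at h4 ⊢
  rw [div_lt_iff₀ (by linarith)] at h3
  exact h3.le

/-! ### Listings -/

/-- The union of the edges before `e i`. -/
abbrev before {k : ℕ} (e : Fin k → Finset α) (i : Fin k) : Finset α := (Finset.Iio i).biUnion e

lemma before_castSucc {k : ℕ} (e : Fin (k + 1) → Finset α) (i : Fin k) :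
    before e i.castSucc = before (fun j => e j.castSucc) i := by
  unfold before
  rw [← Fin.finsetImage_castSucc_Iio, image_biUnion]

lemma before_last {k : ℕ} (e : Fin (k + 1) → Finset α) :
    before e (Fin.last k) = verts (univ.image fun j : Fin k => e j.castSucc) := by
  ext x
  unfold before
  rw [mem_biUnion, mem_verts]
  constructor
  · rintro ⟨j, hj, hx⟩
    rw [Finset.mem_Iio] at hj
    obtain ⟨j', rfl⟩ := Fin.exists_castSucc_eq.2 hj.ne
    exact ⟨_, mem_image_of_mem _ (mem_univ j'), hx⟩
  · rintro ⟨s, hs, hx⟩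
    obtain ⟨j, _, rfl⟩ := mem_image.1 hs
    exact ⟨j.castSucc, Finset.mem_Iio.2 (Fin.castSucc_lt_last j), hx⟩

/-- A single edge is a strict tree. -/
lemma strict_single {r : ℕ} {f : Finset α} (hf : f.card = r) : AR.IsStrictTree r {f} := by
  refine ⟨0, fun _ => f, fun i j _ => Fin.ext (by have := i.2; have := j.2; omega), ?_,
    fun _ => hf, ?_⟩
  · ext s
    simp [eq_comm]
  · intro i hi
    exact absurd hi (by have := i.2; omega)

/-- Adding an edge at the end. -/
lemma strict_insert {r : ℕ} {P : Finset (Finset α)} (hP : AR.IsStrictTree r P) {f : Finset α}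
    (hf : f.card = r) (hfP : f ∉ P) (h1 : (f ∩ verts P).card + 1 = r)
    (h2 : ∃ g ∈ P, f ∩ verts P ⊆ g) : AR.IsStrictTree r (insert f P) := by
  classical
  obtain ⟨k, e, hinj, himg, hcard, hatt⟩ := hP
  let e' : Fin (k + 2) → Finset α := Fin.snoc e f
  have hc : ∀ j : Fin (k + 1), e' j.castSucc = e j := fun j => Fin.snoc_castSucc (α := fun _ => Finset α) f e j
  have hl : e' (Fin.last (k + 1)) = f := Fin.snoc_last (α := fun _ => Finset α) f e
  have hfun : (fun j : Fin (k + 1) => e' j.castSucc) = e := funext hc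
  have hmem : ∀ j, e j ∈ P := fun j => by
    rw [← himg]
    exact mem_image_of_mem _ (mem_univ j)
  refine ⟨k + 1, e', ?_, ?_, ?_, ?_⟩
  · intro i j hij
    induction i using Fin.lastCases with
    | last =>
      induction j using Fin.lastCases with
      | last => rfl
      | cast j =>
        rw [hl, hc] at hij
        exact absurd (hij ▸ hmem j) hfP
    | cast i =>
      induction j using Fin.lastCases with
      | last =>
        rw [hl, hc] at hij
        exact absurd (hij ▸ hmem i) hfP
      | cast j =>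
        rw [hc, hc] at hij
        rw [hinj hij]
  · ext s
    rw [mem_image, mem_insert, ← himg, mem_image]
    constructor
    · rintro ⟨i, _, rfl⟩
      induction i using Fin.lastCases with
      | last => exact Or.inl hl
      | cast i => exact Or.inr ⟨i, mem_univ _, (hc i).symm⟩
    · rintro (rfl | ⟨i, _, rfl⟩)
      · exact ⟨Fin.last _, mem_univ _, hl⟩
      · exact ⟨i.castSucc, mem_univ _, hc i⟩
  · intro i
    induction i using Fin.lastCases with
    | last => rw [hl, hf]
    | cast i => rw [hc, hcard]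
  · intro i hi
    induction i using Fin.lastCases with
    | last =>
      have h3 : (Finset.Iio (Fin.last (k + 1))).biUnion e' = verts P := by
        have h4 := before_last e'
        rw [hfun, himg] at h4
        exact h4
      rw [h3, hl]
      refine ⟨h1, ?_⟩
      obtain ⟨g, hg, hsub⟩ := h2
      rw [← himg] at hg
      obtain ⟨j, _, rfl⟩ := mem_image.1 hg
      exact ⟨j.castSucc, Fin.castSucc_lt_last j, by rw [hc]; exact hsub⟩
    | cast i =>
      have h3 : (Finset.Iio i.castSucc).biUnion e' = (Finset.Iio i).biUnion e := by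
        have h4 := before_castSucc e' i
        rw [hfun] at h4
        exact h4
      rw [h3, hc]
      obtain ⟨h5, j, hj, hsub⟩ := hatt i hi
      exact ⟨h5, j.castSucc, Fin.castSucc_lt_castSucc_iff.2 hj, by rw [hc]; exact hsub⟩

/-- The number of empty attachments. -/
def emp {k : ℕ} (e : Fin k → Finset α) : ℕ :=
  (univ.filter fun i : Fin k => 0 < (i : ℕ) ∧ e i ∩ before e i = ∅).card

lemma emp_succ {k : ℕ} (e : Fin (k + 2) → Finset α) :
    emp e = emp (fun j : Fin (k + 1) => e j.castSucc) +
      if e (Fin.last (k + 1)) ∩ before e (Fin.last (k + 1)) = ∅ then 1 else 0 := by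
  unfold emp
  rw [card_filter, card_filter, Fin.sum_univ_castSucc]
  have h1 : (0 : ℕ) < (Fin.last (k + 1) : ℕ) := by
    rw [Fin.val_last]
    omega
  simp only [before_castSucc, h1, true_and, Fin.val_castSucc]

/-- Decomposition of a listing into strict trees. -/
lemma decomp {r : ℕ} : ∀ (k : ℕ) (e : Fin (k + 1) → Finset α), Function.Injective e →
    (∀ i, (e i).card = r) →
    (∀ i : Fin (k + 1), 0 < (i : ℕ) → (e i ∩ before e i = ∅ ∨ (e i ∩ before e i).card + 1 = r) ∧
      ∃ j < i, e i ∩ before e i ⊆ e j) →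
    ∃ Cs : Finset (Finset (Finset α)), (∀ P ∈ Cs, AR.IsStrictTree r P) ∧
      (∀ P ∈ Cs, ∀ Q ∈ Cs, P ≠ Q → Disjoint (verts P) (verts Q)) ∧
      Cs.biUnion id = univ.image e ∧ Cs.card = emp e + 1 := by
  classical
  intro k
  induction k with
  | zero =>
    intro e hinj hcard hatt
    refine ⟨{{e 0}}, ?_, ?_, ?_, ?_⟩
    · intro P hP
      rw [mem_singleton.1 hP]
      exact strict_single (hcard 0)
    · intro P hP Q hQ hPQ
      rw [mem_singleton] at hP hQ
      exact absurd (hP.trans hQ.symm) hPQ
    · rw [singleton_biUnion]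
      ext s
      simp only [id, mem_singleton, mem_image, mem_univ, true_and]
      constructor
      · rintro rfl
        exact ⟨0, rfl⟩
      · rintro ⟨i, rfl⟩
        rw [show i = 0 from Fin.ext (by have := i.2; simp)]
    · rw [card_singleton]
      unfold emp
      rw [filter_false_of_mem, card_empty]
      rintro i _ ⟨hi, _⟩
      have := i.2
      omega
  | succ k ih =>
    intro e hinj hcard hatt
    obtain ⟨Cs, hst, hdis, hun, hc⟩ := ih (fun j => e j.castSucc)
      (fun i j hij => Fin.castSucc_injective _ (hinj hij)) (fun i => hcard _) (by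
        intro i hi
        obtain ⟨h1, j, hj, hsub⟩ := hatt i.castSucc (by simpa using hi)
        rw [before_castSucc] at h1 hsub
        have hjl : j ≠ Fin.last (k + 1) := by
          rintro rfl
          exact absurd (hj.trans (Fin.castSucc_lt_last i)) (lt_irrefl _)
        obtain ⟨j', rfl⟩ := Fin.exists_castSucc_eq.2 hjl
        exact ⟨h1, j', Fin.castSucc_lt_castSucc_iff.1 hj, hsub⟩)
    set f := e (Fin.last (k + 1)) with hf
    set H := univ.image (fun j : Fin (k + 1) => e j.castSucc) with hH
    have hbl : before e (Fin.last (k + 1)) = verts H := before_last e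
    have himg : univ.image e = insert f H := by
      ext s
      rw [mem_image, mem_insert, hH, mem_image]
      constructor
      · rintro ⟨i, _, rfl⟩
        induction i using Fin.lastCases with
        | last => exact Or.inl rfl
        | cast i => exact Or.inr ⟨i, mem_univ _, rfl⟩
      · rintro (rfl | ⟨i, _, rfl⟩)
        · exact ⟨Fin.last _, mem_univ _, rfl⟩
        · exact ⟨i.castSucc, mem_univ _, rfl⟩
    have hfH : f ∉ H := by
      intro hc
      rw [hH, mem_image] at hc
      obtain ⟨j, _, hj⟩ := hc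
      exact absurd (hinj hj) (Fin.castSucc_lt_last j).ne
    have hPH : ∀ P ∈ Cs, P ⊆ H := fun P hP s hs => by
      rw [← hun]
      exact mem_biUnion.2 ⟨P, hP, hs⟩
    have hvPH : ∀ P ∈ Cs, verts P ⊆ verts H := fun P hP x hx => by
      obtain ⟨s, hs, hxs⟩ := mem_verts.1 hx
      exact mem_verts.2 ⟨s, hPH P hP hs, hxs⟩
    have hl0 : 0 < ((Fin.last (k + 1) : Fin (k + 2)) : ℕ) := by
      rw [Fin.val_last]
      omega
    obtain ⟨h1, j, hj, hsub⟩ := hatt (Fin.last (k + 1)) hl0
    rw [emp_succ]
    rw [hbl] at h1 hsub ⊢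
    by_cases hz : f ∩ verts H = ∅
    · -- a new component
      have hsv : verts ({f} : Finset (Finset α)) = f := by
        unfold verts
        rw [singleton_biUnion, id]
      have hnew : ∀ P ∈ Cs, Disjoint f (verts P) := by
        intro P hP
        rw [disjoint_iff_inter_eq_empty, ← subset_empty, ← hz]
        exact inter_subset_inter (Subset.refl _) (hvPH P hP)
      have hni : ({f} : Finset (Finset α)) ∉ Cs := by
        intro hc
        exact hfH (hPH _ hc (mem_singleton_self f))
      refine ⟨insert {f} Cs, ?_, ?_, ?_, ?_⟩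
      · intro P hP
        rcases mem_insert.1 hP with rfl | hP
        · exact strict_single (hcard _)
        · exact hst P hP
      · intro P hP Q hQ hPQ
        rcases mem_insert.1 hP with hP | hP <;> rcases mem_insert.1 hQ with hQ | hQ
        · exact absurd (hP.trans hQ.symm) hPQ
        · rw [hP, hsv]
          exact hnew Q hQ
        · rw [hQ, hsv]
          exact (hnew P hP).symm
        · exact hdis P hP Q hQ hPQ
      · rw [biUnion_insert, hun, himg]
        rfl
      · rw [card_insert_of_notMem hni, hc, if_pos hz]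
    · -- an old component
      have h1' : (f ∩ verts H).card + 1 = r := h1.resolve_left hz
      have hjl : j ≠ Fin.last (k + 1) := hj.ne
      obtain ⟨j', rfl⟩ := Fin.exists_castSucc_eq.2 hjl
      have hjH : e j'.castSucc ∈ H := by
        rw [hH]
        exact mem_image_of_mem _ (mem_univ j')
      rw [← hun, mem_biUnion] at hjH
      obtain ⟨P, hP, hjP⟩ := hjH
      have hjP' : e j'.castSucc ∈ P := hjP
      have hfP : f ∉ P := fun hc => hfH (hPH P hP hc)
      have hsubP : f ∩ verts H ⊆ verts P := fun x hx => mem_verts.2 ⟨_, hjP', hsub hx⟩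
      have heq : f ∩ verts P = f ∩ verts H := by
        apply Subset.antisymm
        · exact inter_subset_inter (Subset.refl _) (hvPH P hP)
        · intro x hx
          exact mem_inter.2 ⟨(mem_inter.1 hx).1, hsubP hx⟩
      have hstP : AR.IsStrictTree r (insert f P) :=
        strict_insert (hst P hP) (hcard _) hfP (by rw [heq]; exact h1')
          ⟨_, hjP', by rw [heq]; exact hsub⟩
      have hvi : verts (insert f P) = f ∪ verts P := by
        unfold verts
        rw [biUnion_insert, id]
      have hni : insert f P ∉ Cs.erase P := by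
        intro hc
        exact hfH (hPH _ (mem_erase.1 hc).2 (mem_insert_self f P))
      have hnew : ∀ Q ∈ Cs.erase P, Disjoint (verts (insert f P)) (verts Q) := by
        intro Q hQ
        obtain ⟨hQP, hQ⟩ := mem_erase.1 hQ
        have h3 := hdis P hP Q hQ hQP.symm
        rw [hvi, disjoint_union_left]
        refine ⟨?_, h3⟩
        rw [disjoint_left]
        intro x hxf hxQ
        exact (disjoint_left.1 h3) (hsubP (mem_inter.2 ⟨hxf, hvPH Q hQ hxQ⟩)) hxQ
      refine ⟨insert (insert f P) (Cs.erase P), ?_, ?_, ?_, ?_⟩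
      · intro Q hQ
        rcases mem_insert.1 hQ with rfl | hQ
        · exact hstP
        · exact hst Q (mem_erase.1 hQ).2
      · intro Q hQ R hR hQR
        rcases mem_insert.1 hQ with hQ | hQ <;> rcases mem_insert.1 hR with hR | hR
        · exact absurd (hQ.trans hR.symm) hQR
        · rw [hQ]
          exact hnew R hR
        · rw [hR]
          exact (hnew Q hQ).symm
        · exact hdis Q (mem_erase.1 hQ).2 R (mem_erase.1 hR).2 hQR
      · rw [biUnion_insert, himg, ← hun]
        ext s
        simp only [id, mem_union, mem_insert, mem_biUnion, mem_erase]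
        constructor
        · rintro ((h | h) | ⟨Q, ⟨_, hQ⟩, h⟩)
          · exact Or.inl h
          · exact Or.inr ⟨P, hP, h⟩
          · exact Or.inr ⟨Q, hQ, h⟩
        · rintro (h | ⟨Q, hQ, h⟩)
          · exact Or.inl (Or.inl h)
          · by_cases hQP : Q = P
            · rw [hQP] at h
              exact Or.inl (Or.inr h)
            · exact Or.inr ⟨Q, ⟨hQP, hQ⟩, h⟩
      · rw [card_insert_of_notMem hni, card_erase_of_mem hP, hc, if_neg hz]
        omega

/-! ### Tightness of disjoint unions -/

lemma tight_insert {H : Finset (Finset α)} (hH : IsTightTree H) {f : Finset α} (hfH : f ∉ H)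
    (h : H.Nonempty → ∃ g ∈ H, f ∩ verts H ⊆ g) : IsTightTree (insert f H) := by
  classical
  obtain ⟨k, e, hinj, himg, hatt⟩ := hH
  let e' : Fin (k + 1) → Finset α := Fin.snoc e f
  have hc : ∀ j : Fin k, e' j.castSucc = e j :=
    fun j => Fin.snoc_castSucc (α := fun _ => Finset α) f e j
  have hl : e' (Fin.last k) = f := Fin.snoc_last (α := fun _ => Finset α) f e
  have hfun : (fun j : Fin k => e' j.castSucc) = e := funext hc
  have hmem : ∀ j, e j ∈ H := fun j => by
    rw [← himg]
    exact mem_image_of_mem _ (mem_univ j)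
  refine ⟨k + 1, e', ?_, ?_, ?_⟩
  · intro i j hij
    induction i using Fin.lastCases with
    | last =>
      induction j using Fin.lastCases with
      | last => rfl
      | cast j =>
        rw [hl, hc] at hij
        exact absurd (hij ▸ hmem j) hfH
    | cast i =>
      induction j using Fin.lastCases with
      | last =>
        rw [hl, hc] at hij
        exact absurd (hij ▸ hmem i) hfH
      | cast j =>
        rw [hc, hc] at hij
        rw [hinj hij]
  · ext s
    rw [mem_image, mem_insert, ← himg, mem_image]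
    constructor
    · rintro ⟨i, _, rfl⟩
      induction i using Fin.lastCases with
      | last => exact Or.inl hl
      | cast i => exact Or.inr ⟨i, mem_univ _, (hc i).symm⟩
    · rintro (rfl | ⟨i, _, rfl⟩)
      · exact ⟨Fin.last _, mem_univ _, hl⟩
      · exact ⟨i.castSucc, mem_univ _, hc i⟩
  · intro i hi
    induction i using Fin.lastCases with
    | last =>
      have h3 : (Finset.Iio (Fin.last k)).biUnion e' = verts H := by
        have h4 := before_last e'
        rw [hfun, himg] at h4
        exact h4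
      rw [h3, hl]
      have hk : 0 < k := by simpa using hi
      obtain ⟨g, hg, hsub⟩ := h ⟨e ⟨0, hk⟩, hmem _⟩
      rw [← himg] at hg
      obtain ⟨j, _, rfl⟩ := mem_image.1 hg
      exact ⟨j.castSucc, Fin.castSucc_lt_last j, by rw [hc]; exact hsub⟩
    | cast i =>
      have h3 : (Finset.Iio i.castSucc).biUnion e' = (Finset.Iio i).biUnion e := by
        have h4 := before_castSucc e' i
        rw [hfun] at h4
        exact h4
      rw [h3, hc]
      obtain ⟨j, hj, hsub⟩ := hatt i hi
      exact ⟨j.castSucc, Fin.castSucc_lt_castSucc_iff.2 hj, by rw [hc]; exact hsub⟩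

lemma tight_union_aux {H1 : Finset (Finset α)} (h1 : IsTightTree H1) (hne : H1.Nonempty) :
    ∀ (k : ℕ) (e : Fin k → Finset α), Function.Injective e →
    (∀ i : Fin k, 0 < (i : ℕ) → ∃ j < i, e i ∩ before e i ⊆ e j) → (∀ i, (e i).Nonempty) →
    Disjoint (verts H1) (verts (univ.image e)) → IsTightTree (H1 ∪ univ.image e) := by
  classical
  intro k
  induction k with
  | zero =>
    intro e _ _ _ _
    rw [univ_eq_empty, image_empty, union_empty]
    exact h1
  | succ k ih =>
    intro e hinj hatt hnn hdis
    have himg : univ.image e = insert (e (Fin.last k)) (univ.image fun j : Fin k => e j.castSucc) := by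
      ext s
      rw [mem_image, mem_insert, mem_image]
      constructor
      · rintro ⟨i, _, rfl⟩
        induction i using Fin.lastCases with
        | last => exact Or.inl rfl
        | cast i => exact Or.inr ⟨i, mem_univ _, rfl⟩
      · rintro (rfl | ⟨i, _, rfl⟩)
        · exact ⟨Fin.last _, mem_univ _, rfl⟩
        · exact ⟨i.castSucc, mem_univ _, rfl⟩
    set f := e (Fin.last k) with hf
    set H2 := univ.image (fun j : Fin k => e j.castSucc) with hH2
    rw [himg] at hdis ⊢
    have hsub2 : verts H2 ⊆ verts (insert f H2) := by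
      intro x hx
      obtain ⟨s, hs, hxs⟩ := mem_verts.1 hx
      exact mem_verts.2 ⟨s, mem_insert_of_mem hs, hxs⟩
    have hfsub : f ⊆ verts (insert f H2) := fun x hx => mem_verts.2 ⟨f, mem_insert_self _ _, hx⟩
    have h2 := ih (fun j => e j.castSucc) (fun i j hij => Fin.castSucc_injective _ (hinj hij)) (by
      intro i hi
      obtain ⟨j, hj, hsub⟩ := hatt i.castSucc (by simpa using hi)
      rw [before_castSucc] at hsub
      have hjl : j ≠ Fin.last k := by
        rintro rfl
        exact absurd (hj.trans (Fin.castSucc_lt_last i)) (lt_irrefl _)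
      obtain ⟨j', rfl⟩ := Fin.exists_castSucc_eq.2 hjl
      exact ⟨j', Fin.castSucc_lt_castSucc_iff.1 hj, hsub⟩) (fun i => hnn _)
      (hdis.mono_right hsub2)
    rw [← hH2] at h2
    have hu : H1 ∪ insert f H2 = insert f (H1 ∪ H2) := union_insert f H1 H2
    rw [hu]
    have hfv : Disjoint f (verts H1) := (hdis.mono_right hfsub).symm
    have hv : verts (H1 ∪ H2) = verts H1 ∪ verts H2 := by
      unfold verts
      rw [union_biUnion]
    have hint : f ∩ verts (H1 ∪ H2) = f ∩ verts H2 := by
      rw [hv, inter_union_distrib_left, disjoint_iff_inter_eq_empty.1 hfv, empty_union]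
    refine tight_insert h2 ?_ ?_
    · intro hc
      rcases mem_union.1 hc with hc | hc
      · obtain ⟨x, hx⟩ := hnn (Fin.last k)
        exact (disjoint_left.1 hfv) hx (mem_verts.2 ⟨f, hc, hx⟩)
      · rw [hH2, mem_image] at hc
        obtain ⟨j, _, hj⟩ := hc
        exact absurd (hinj hj) (Fin.castSucc_lt_last j).ne
    · intro _
      rw [hint]
      have hbl : before e (Fin.last k) = verts H2 := before_last e
      rcases Nat.eq_zero_or_pos k with hk | hk
      · obtain ⟨g, hg⟩ := hne
        refine ⟨g, mem_union_left _ hg, ?_⟩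
        subst hk
        have : verts H2 = ∅ := by
          rw [hH2, univ_eq_empty, image_empty]
          rfl
        rw [this, inter_empty]
        exact empty_subset _
      · obtain ⟨j, hj, hsub⟩ := hatt (Fin.last k) (by rw [Fin.val_last]; exact hk)
        rw [hbl] at hsub
        obtain ⟨j', rfl⟩ := Fin.exists_castSucc_eq.2 hj.ne
        exact ⟨_, mem_union_right _ (by rw [hH2]; exact mem_image_of_mem _ (mem_univ j')), hsub⟩

lemma tight_union {H1 H2 : Finset (Finset α)} (h1 : IsTightTree H1) (h2 : IsTightTree H2)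
    (hne : H1.Nonempty) (hnn : ∀ f ∈ H2, f.Nonempty) (hd : Disjoint (verts H1) (verts H2)) :
    IsTightTree (H1 ∪ H2) := by
  obtain ⟨k, e, hinj, rfl, hatt⟩ := h2
  exact tight_union_aux h1 hne k e hinj hatt (fun i => hnn _ (mem_image_of_mem _ (mem_univ i))) hd

lemma tight_biUnion {r : ℕ} (hr : 1 ≤ r) {ι : Type*} (s : Finset ι) (hs : s.Nonempty)
    (H : ι → Finset (Finset α)) (hu : ∀ i ∈ s, IsUniform r (H i)) (hne : ∀ i ∈ s, (H i).Nonempty)
    (hd : ∀ i ∈ s, ∀ j ∈ s, i ≠ j → Disjoint (verts (H i)) (verts (H j)))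
    (h : ∀ i ∈ s, IsTightTree (H i)) : IsTightTree (s.biUnion H) := by
  classical
  induction hs using Finset.Nonempty.cons_induction with
  | singleton i =>
    rw [singleton_biUnion]
    exact h i (mem_singleton_self i)
  | cons i s hi hs ih =>
    rw [cons_eq_insert, biUnion_insert]
    have h1 := ih (fun j hj => hu j (mem_cons_of_mem hj)) (fun j hj => hne j (mem_cons_of_mem hj))
      (fun j hj k hk hjk => hd j (mem_cons_of_mem hj) k (mem_cons_of_mem hk) hjk)
      (fun j hj => h j (mem_cons_of_mem hj))
    refine tight_union (h i (mem_cons_self i s)) h1 (hne i (mem_cons_self i s)) ?_ ?_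
    · intro f hf
      obtain ⟨j, hj, hfj⟩ := mem_biUnion.1 hf
      rw [← card_pos, hu j (mem_cons_of_mem hj) f hfj]
      omega
    · rw [disjoint_left]
      intro x hx hx2
      obtain ⟨e, he, hxe⟩ := mem_verts.1 hx2
      obtain ⟨j, hj, hej⟩ := mem_biUnion.1 he
      have hij : i ≠ j := by
        rintro rfl
        exact hi hj
      exact (disjoint_left.1 (hd i (mem_cons_self i s) j (mem_cons_of_mem hj) hij)) hx
        (mem_verts.2 ⟨e, hej, hxe⟩)

/-! ### The theorems -/

/-- All 3-uniform tight trees whose attachments have size `0` or `2`. -/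
theorem forest_three (k : ℕ) (e : Fin (k + 1) → Finset α) (hinj : Function.Injective e)
    (hcard : ∀ i, (e i).card = 3)
    (hatt : ∀ i : Fin (k + 1), 0 < (i : ℕ) →
      (e i ∩ (Finset.Iio i).biUnion e = ∅ ∨ (e i ∩ (Finset.Iio i).biUnion e).card = 2) ∧
      ∃ j < i, e i ∩ (Finset.Iio i).biUnion e ⊆ e j) :
    IsTightTree (univ.image e) ∧
      Tendsto (fun n : ℕ => (ex 3 n (expansion 1 (H5.shadow (univ.image e))) : ℝ) /
        (n.choose 2 : ℝ)) atTop (𝓝 (((k + 1 + emp e : ℕ) : ℝ))) := by
  classical
  refine ⟨⟨k + 1, e, hinj, rfl, fun i hi => (hatt i hi).2⟩, ?_⟩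
  obtain ⟨Cs, hst, hdis, hun, hc⟩ := decomp (r := 3) k e hinj hcard
    (fun i hi => ⟨(hatt i hi).1.imp id fun h => by rw [h], (hatt i hi).2⟩)
  have hne : Cs.Nonempty := by
    rw [← card_pos, hc]
    omega
  have h1 := Sol.biUnion (r := 3) (by norm_num) Cs hne id (fun P => P.card)
    (fun P hP => (AR.strict α 3 P (hst P hP)).2.1) hdis (fun P hP => sol_tree (hst P hP))
  have h2 : ∑ P ∈ Cs, (P.card + 1) - 1 = k + 1 + emp e := by
    have h3 : (Cs.biUnion id).card = ∑ P ∈ Cs, P.card := by
      rw [card_biUnion]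
      · rfl
      · intro P hP Q hQ hPQ
        refine Finset.disjoint_left.2 ?_
        intro s hs1 hs2
        have hs3 : s.card = 3 := (AR.strict α 3 P (hst P hP)).2.1 s hs1
        obtain ⟨x, hx⟩ : s.Nonempty := by
          rw [← card_pos, hs3]
          norm_num
        exact (disjoint_left.1 (hdis P hP Q hQ hPQ)) (mem_verts.2 ⟨s, hs1, hx⟩)
          (mem_verts.2 ⟨s, hs2, hx⟩)
    rw [hun, card_image_of_injective _ hinj, card_univ, Fintype.card_fin] at h3
    rw [sum_add_distrib, ← h3, sum_const, smul_eq_mul, mul_one, hc]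
    omega
  rw [h2, hun] at h1
  exact h1.tendsto (by norm_num)

/-- The same for the sets of edges. -/
theorem forest_three' {H : Finset (Finset α)} {z : ℕ} (hH : IsTree02 H z) :
    IsTightTree H ∧
      Tendsto (fun n : ℕ => (ex 3 n (expansion 1 (H5.shadow H)) : ℝ) / (n.choose 2 : ℝ)) atTop
        (𝓝 ((H.card + z : ℕ) : ℝ)) := by
  obtain ⟨k, e, hinj, rfl, hcard, hatt, rfl⟩ := hH
  have h1 := forest_three k e hinj hcard hatt
  rw [card_image_of_injective _ hinj, card_univ, Fintype.card_fin]
  exact h1

/-- Disjoint unions of books. -/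
theorem forest_books (r : ℕ) (hr : 2 ≤ r) (m : ℕ) (hm : 1 ≤ m) (B : Fin m → Finset (Finset α))
    (hB : ∀ i, AR.IsBook r (B i)) (hd : ∀ i j, i ≠ j → Disjoint (verts (B i)) (verts (B j))) :
    IsTightTree (univ.biUnion B) ∧
      (m = 1 → ∀ (V : Type) [Fintype V] [DecidableEq V] (G : Finset (Finset V)),
        IsUniform r G → ¬ ContainsCopy (expansion 1 (H5.shadow (univ.biUnion B))) G →
        G.card ≤ (univ.biUnion B).card * (H5.shadow G).card) ∧
      Tendsto (fun n : ℕ => (ex r n (expansion 1 (H5.shadow (univ.biUnion B))) : ℝ) /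
        (n.choose (r - 1) : ℝ)) atTop (𝓝 (((univ.biUnion B).card + m - 1 : ℕ) : ℝ)) := by
  classical
  have : NeZero m := ⟨by omega⟩
  have hne : (univ : Finset (Fin m)).Nonempty := ⟨0, mem_univ _⟩
  have hu : ∀ i, IsUniform r (B i) := fun i => (hB i).2.1
  refine ⟨tight_biUnion (by omega) univ hne B (fun i _ => hu i) (fun i _ => (hB i).1)
    (fun i _ j _ hij => hd i j hij)
    (fun i _ => (AR.strict α r (B i) (hB i).isStrictTree).2.2.1), ?_, ?_⟩
  · intro hm1 V _ _ G hG
    subst hm1
    have h0 : univ.biUnion B = B 0 := by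
      ext s
      rw [mem_biUnion]
      constructor
      · rintro ⟨i, _, h⟩
        rwa [Subsingleton.elim i 0] at h
      · intro h
        exact ⟨0, mem_univ _, h⟩
    rw [h0]
    exact (AR.book r hr (B 0) (hB 0)).2.1 V G hG
  have h1 := Sol.biUnion hr univ hne B (fun i => (B i).card) (fun i _ => hu i)
    (fun i _ j _ hij => hd i j hij) (fun i _ => sol_book hr (hB i))
  have h2 : ∑ i : Fin m, ((B i).card + 1) - 1 = (univ.biUnion B).card + m - 1 := by
    have h3 : (univ.biUnion B).card = ∑ i : Fin m, (B i).card := by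
      refine card_biUnion ?_
      intro i _ j _ hij
      refine Finset.disjoint_left.2 ?_
      intro s hs1 hs2
      obtain ⟨x, hx⟩ : s.Nonempty := by
        rw [← card_pos, hu i s hs1]
        omega
      exact (disjoint_left.1 (hd i j hij)) (mem_verts.2 ⟨s, hs1, hx⟩) (mem_verts.2 ⟨s, hs2, hx⟩)
    rw [h3, sum_add_distrib, sum_const, card_univ, Fintype.card_fin, smul_eq_mul, mul_one]
  rw [h2] at h1
  exact h1.tendsto hr

end MP_182bbb_co.DU
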