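import Pool.Agent.Lib.MP_182bbb_co.AR.Iface

/-!
# MP_182bbb_co : disjoint unions

If `ex_r(n, F_i) ≤ (a_i + o(1)) C(n, r-1)` for `i = 1, 2` then
`ex_r(n, F_1 ⊔ F_2) ≤ (a_1 + a_2 + 1 + o(1)) C(n, r-1)`; and if stars with `l_i` centres contain no
`F_i` then stars with `l_1 + l_2 + 1` centres contain no `F_1 ⊔ F_2`.
-/

open Finset MP_182bbb_co.H5

namespace MP_182bbb_co.DU

variable {β : Type*} [DecidableEq β]

/-- `ex_r(n, F) ≤ (a + o(1)) C(n, r-1)`. -/
def UB (r : ℕ) (F : Finset (Finset β)) (a : ℝ) : Prop :=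
  ∀ ε : ℝ, 0 < ε → ∃ n0 : ℕ, ∀ n, n0 ≤ n → (ex r n F : ℝ) ≤ (a + ε) * (n.choose (r - 1) : ℝ)

/-- Stars with at most `l` centres contain no copy of `F`. -/
def SF (r : ℕ) (F : Finset (Finset β)) (l : ℕ) : Prop :=
  ∀ (n : ℕ) (L : Finset (Fin n)), L.card ≤ l → ¬ ContainsCopy F (AR.star r L)

/-! ### Degrees -/

/-- Number of edges through a vertex. -/
def deg {n : ℕ} (G : Finset (Finset (Fin n))) (v : Fin n) : ℕ := (G.filter fun e => v ∈ e).card

lemma deg_le {n r : ℕ} {G : Finset (Finset (Fin n))} (hG : IsUniform r G) (v : Fin n) :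
    deg G v ≤ n.choose (r - 1) := by
  unfold deg
  have h1 : (G.filter fun e => v ∈ e).card ≤ ((univ : Finset (Fin n)).powersetCard (r - 1)).card := by
    refine Finset.card_le_card_of_injOn (fun e => e.erase v) ?_ ?_
    · intro e he
      rw [mem_coe, mem_filter] at he
      rw [mem_coe, mem_powersetCard]
      refine ⟨subset_univ _, ?_⟩
      rw [card_erase_of_mem he.2, hG e he.1]
    · intro e he e' he' h
      rw [mem_coe, mem_filter] at he he'
      have h2 : e.erase v = e'.erase v := h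
      rw [← insert_erase he.2, ← insert_erase he'.2, h2]
  rwa [card_powersetCard, card_univ, Fintype.card_fin] at h1

lemma codeg_le {n r : ℕ} {G : Finset (Finset (Fin n))} (hG : IsUniform r G) {u v : Fin n}
    (huv : u ≠ v) : (G.filter fun e => u ∈ e ∧ v ∈ e).card ≤ n.choose (r - 2) := by
  have h1 : (G.filter fun e => u ∈ e ∧ v ∈ e).card ≤
      ((univ : Finset (Fin n)).powersetCard (r - 2)).card := by
    refine Finset.card_le_card_of_injOn (fun e => (e.erase u).erase v) ?_ ?_
    · intro e he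
      rw [mem_coe, mem_filter] at he
      rw [mem_coe, mem_powersetCard]
      refine ⟨subset_univ _, ?_⟩
      rw [card_erase_of_mem (mem_erase.2 ⟨huv.symm, he.2.2⟩), card_erase_of_mem he.2.1,
        hG e he.1]
      omega
    · intro e he e' he' h
      rw [mem_coe, mem_filter] at he he'
      have h2 : (e.erase u).erase v = (e'.erase u).erase v := h
      have h3 : v ∈ e.erase u := mem_erase.2 ⟨huv.symm, he.2.2⟩
      have h3' : v ∈ e'.erase u := mem_erase.2 ⟨huv.symm, he'.2.2⟩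
      rw [← insert_erase he.2.1, ← insert_erase he'.2.1, ← insert_erase h3, ← insert_erase h3', h2]
  rwa [card_powersetCard, card_univ, Fintype.card_fin] at h1

lemma sum_deg_le {n r : ℕ} {G : Finset (Finset (Fin n))} (hG : IsUniform r G)
    (L : Finset (Fin n)) : ∑ v ∈ L, deg G v ≤ r * G.card := by
  unfold deg
  have h1 : ∑ v ∈ L, (G.filter fun e => v ∈ e).card = ∑ e ∈ G, (L.filter fun v => v ∈ e).card := by
    simp only [card_filter]
    exact sum_comm
  rw [h1]
  calc ∑ e ∈ G, (L.filter fun v => v ∈ e).card ≤ ∑ _e ∈ G, r := by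
        refine sum_le_sum fun e he => ?_
        rw [← hG e he]
        exact card_le_card fun v hv => (mem_filter.1 hv).2
    _ = r * G.card := by rw [sum_const, smul_eq_mul, mul_comm]

/-! ### The combinatorial part of the upper bound -/

/-- The edges which meet `L` only in `S`. -/
def GS {n : ℕ} (G : Finset (Finset (Fin n))) (L S : Finset (Fin n)) : Finset (Finset (Fin n)) :=
  G.filter fun e => e ∩ L ⊆ S

lemma exists_copy {r n : ℕ} {F : Finset (Finset β)} {G : Finset (Finset (Fin n))}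
    (hG : IsUniform r G) {x : ℝ} (hx : (ex r n F : ℝ) ≤ x) (h : x < G.card) :
    ContainsCopy F G := by
  by_contra hc
  have h1 : (G.card : ℝ) ≤ ex r n F := by exact_mod_cast le_ex G hG hc
  linarith

lemma join_copies {n : ℕ} {F1 F2 : Finset (Finset β)} (hd : Disjoint (verts F1) (verts F2))
    {G G1 G2 : Finset (Finset (Fin n))} (h1 : G1 ⊆ G) (h2 : G2 ⊆ G) (f1 f2 : β → Fin n)
    (hi1 : Set.InjOn f1 (verts F1 : Set β)) (he1 : ∀ e ∈ F1, e.image f1 ∈ G1)
    (hi2 : Set.InjOn f2 (verts F2 : Set β)) (he2 : ∀ e ∈ F2, e.image f2 ∈ G2)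
    (hdis : ∀ e ∈ G2, Disjoint ((verts F1).image f1) e) : ContainsCopy (F1 ∪ F2) G := by
  classical
  set f : β → Fin n := fun x => if x ∈ verts F1 then f1 x else f2 x with hf
  have hf1 : ∀ x ∈ verts F1, f x = f1 x := fun x hx => if_pos hx
  have hf2 : ∀ x ∈ verts F2, f x = f2 x := fun x hx =>
    if_neg fun hc => (disjoint_left.1 hd) hc hx
  have hcross : ∀ x ∈ verts F1, ∀ y ∈ verts F2, f1 x ≠ f2 y := by
    intro x hx y hy hxy
    obtain ⟨e, he, hye⟩ := mem_verts.1 hy
    refine (disjoint_left.1 (hdis _ (he2 e he))) (mem_image_of_mem f1 hx) ?_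
    rw [hxy]
    exact mem_image_of_mem f2 hye
  have hverts : ∀ x ∈ verts (F1 ∪ F2), x ∈ verts F1 ∨ x ∈ verts F2 := by
    intro x hx
    obtain ⟨e, he, hxe⟩ := mem_verts.1 hx
    rcases mem_union.1 he with he | he
    · exact Or.inl (mem_verts.2 ⟨e, he, hxe⟩)
    · exact Or.inr (mem_verts.2 ⟨e, he, hxe⟩)
  refine ⟨f, ?_, ?_⟩
  · intro x hx y hy hxy
    rcases hverts x (mem_coe.1 hx) with hx | hx <;> rcases hverts y (mem_coe.1 hy) with hy | hy
    · rw [hf1 x hx, hf1 y hy] at hxy
      exact hi1 (mem_coe.2 hx) (mem_coe.2 hy) hxy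
    · rw [hf1 x hx, hf2 y hy] at hxy
      exact absurd hxy (hcross x hx y hy)
    · rw [hf2 x hx, hf1 y hy] at hxy
      exact absurd hxy.symm (hcross y hy x hx)
    · rw [hf2 x hx, hf2 y hy] at hxy
      exact hi2 (mem_coe.2 hx) (mem_coe.2 hy) hxy
  · intro e he
    rcases mem_union.1 he with he | he
    · have h3 : e.image f = e.image f1 :=
        image_congr fun x hx => hf1 x (mem_verts.2 ⟨e, he, mem_coe.1 hx⟩)
      rw [h3]
      exact h1 (he1 e he)
    · have h3 : e.image f = e.image f2 :=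
        image_congr fun x hx => hf2 x (mem_verts.2 ⟨e, he, mem_coe.1 hx⟩)
      rw [h3]
      exact h2 (he2 e he)

/-- The combinatorial core. -/
lemma core {n r : ℕ} {F1 F2 : Finset (Finset β)} (hd : Disjoint (verts F1) (verts F2))
    {G : Finset (Finset (Fin n))} (hG : IsUniform r G) (hfree : ¬ ContainsCopy (F1 ∪ F2) G)
    {x1 x2 d : ℝ} (hd0 : 0 ≤ d) (hx1 : (ex r n F1 : ℝ) ≤ x1) (hx2 : (ex r n F2 : ℝ) ≤ x2)
    (L : Finset (Fin n)) (hL : ∀ v, v ∉ L → (deg G v : ℝ) ≤ d) :
    (G.card : ℝ) ≤ x1 + x2 + (n.choose (r - 1) : ℝ) + (L.card : ℝ) ^ 2 * (n.choose (r - 2) : ℝ) +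
      (verts F1).card * d := by
  classical
  by_contra hcon
  rw [not_le] at hcon
  have hC0 : (0 : ℝ) ≤ (n.choose (r - 1) : ℝ) := Nat.cast_nonneg _
  have hC2 : (0 : ℝ) ≤ (n.choose (r - 2) : ℝ) := Nat.cast_nonneg _
  have hx20 : 0 ≤ x2 := le_trans (Nat.cast_nonneg _) hx2
  have hx10 : 0 ≤ x1 := le_trans (Nat.cast_nonneg _) hx1
  have hLC : 0 ≤ (L.card : ℝ) ^ 2 * (n.choose (r - 2) : ℝ) := by positivity
  have hVd : 0 ≤ ((verts F1).card : ℝ) * d := by positivity
  have hGSu : ∀ S, IsUniform r (GS G L S) := fun S e he => hG e (mem_filter.1 he).1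
  have hGSL : GS G L L = G := filter_true_of_mem fun e _ => inter_subset_right
  -- a minimal `S1`
  obtain ⟨S1, hS1, hmin⟩ := Finset.exists_min_image
    (L.powerset.filter fun S => x1 < ((GS G L S).card : ℝ)) Finset.card
    ⟨L, by
      rw [mem_filter, mem_powerset, hGSL]
      exact ⟨Subset.refl _, by linarith⟩⟩
  rw [mem_filter, mem_powerset] at hS1
  obtain ⟨hS1L, hS1x⟩ := hS1
  set S2 := L \ S1 with hS2
  -- the other part is large
  have hlarge : x2 + (verts F1).card * d < ((GS G L S2).card : ℝ) := by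
    by_cases hemp : S1 = ∅
    · rw [hS2, hemp, sdiff_empty, hGSL]
      linarith
    · obtain ⟨v, hv⟩ := nonempty_iff_ne_empty.2 hemp
      -- `G_{S1}` is not too large
      have h1 : ((GS G L (S1.erase v)).card : ℝ) ≤ x1 := by
        by_contra hc
        rw [not_le] at hc
        have h2 := hmin (S1.erase v) (by
          rw [mem_filter, mem_powerset]
          exact ⟨(erase_subset _ _).trans hS1L, hc⟩)
        have h3 := card_erase_lt_of_mem hv
        omega
      have h2 : GS G L S1 ⊆ GS G L (S1.erase v) ∪ G.filter (fun e => v ∈ e) := by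
        intro e he
        unfold GS at he ⊢
        rw [mem_filter] at he
        rw [mem_union, mem_filter, mem_filter]
        by_cases hve : v ∈ e
        · exact Or.inr ⟨he.1, hve⟩
        · refine Or.inl ⟨he.1, fun x hx => ?_⟩
          rw [mem_erase]
          refine ⟨?_, he.2 hx⟩
          rintro rfl
          exact hve (mem_inter.1 hx).1
      have h3 : ((GS G L S1).card : ℝ) ≤ x1 + (n.choose (r - 1) : ℝ) := by
        have h4 : (GS G L S1).card ≤ (GS G L (S1.erase v)).card + deg G v :=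
          (card_le_card h2).trans (card_union_le _ _)
        have h5 := deg_le hG v
        have h6 : ((GS G L S1).card : ℝ) ≤ (GS G L (S1.erase v)).card + deg G v := by
          exact_mod_cast h4
        have h7 : (deg G v : ℝ) ≤ (n.choose (r - 1) : ℝ) := by exact_mod_cast h5
        linarith
      -- the edges meeting both parts
      have h4 : G ⊆ (GS G L S1 ∪ GS G L S2) ∪
          (S1 ×ˢ S2).biUnion (fun p => G.filter fun e => p.1 ∈ e ∧ p.2 ∈ e) := by
        intro e he
        by_cases hc1 : e ∩ L ⊆ S1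
        · exact mem_union_left _ (mem_union_left _ (mem_filter.2 ⟨he, hc1⟩))
        by_cases hc2 : e ∩ L ⊆ S2
        · exact mem_union_left _ (mem_union_right _ (mem_filter.2 ⟨he, hc2⟩))
        obtain ⟨y, hy, hy1⟩ := not_subset.1 hc1
        obtain ⟨z, hz, hz2⟩ := not_subset.1 hc2
        rw [mem_inter] at hy hz
        refine mem_union_right _ (mem_biUnion.2 ⟨(z, y), ?_, mem_filter.2 ⟨he, hz.1, hy.1⟩⟩)
        rw [mem_product]
        refine ⟨?_, mem_sdiff.2 ⟨hy.2, hy1⟩⟩
        by_contra hzn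
        exact hz2 (mem_sdiff.2 ⟨hz.2, hzn⟩)
      have h5 : ((S1 ×ˢ S2).biUnion
          (fun p => G.filter fun e => p.1 ∈ e ∧ p.2 ∈ e)).card ≤ L.card ^ 2 * n.choose (r - 2) := by
        calc ((S1 ×ˢ S2).biUnion (fun p => G.filter fun e => p.1 ∈ e ∧ p.2 ∈ e)).card
            ≤ (S1 ×ˢ S2).card * n.choose (r - 2) := by
              refine card_biUnion_le_card_mul _ _ _ fun p hp => codeg_le hG ?_
              rw [mem_product] at hp
              intro hc
              rw [hc] at hp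
              exact (mem_sdiff.1 hp.2).2 hp.1
          _ ≤ L.card ^ 2 * n.choose (r - 2) := by
              refine Nat.mul_le_mul_right _ ?_
              rw [card_product, pow_two]
              exact Nat.mul_le_mul (card_le_card hS1L) (card_le_card sdiff_subset)
      have h6 : G.card ≤ (GS G L S1).card + (GS G L S2).card + L.card ^ 2 * n.choose (r - 2) := by
        refine (card_le_card h4).trans ((card_union_le _ _).trans ?_)
        exact Nat.add_le_add (card_union_le _ _) h5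
      have h7 : (G.card : ℝ) ≤ (GS G L S1).card + (GS G L S2).card +
          (L.card : ℝ) ^ 2 * (n.choose (r - 2) : ℝ) := by exact_mod_cast h6
      linarith
  -- the first copy
  obtain ⟨f1, hi1, he1⟩ := exists_copy (hGSu S1) hx1 hS1x
  set W := (verts F1).image f1 with hW
  have hWS2 : ∀ w ∈ W, w ∉ S2 := by
    intro w hw hw2
    rw [hW, mem_image] at hw
    obtain ⟨x, hx, rfl⟩ := hw
    obtain ⟨e, he, hxe⟩ := mem_verts.1 hx
    have h1 := (mem_filter.1 (he1 e he)).2
    rw [mem_sdiff] at hw2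
    exact hw2.2 (h1 (mem_inter.2 ⟨mem_image_of_mem f1 hxe, hw2.1⟩))
  -- the second copy
  set G2 := (GS G L S2).filter (fun e => Disjoint W e) with hG2
  have hsub : GS G L S2 ⊆ G2 ∪ W.biUnion (fun w => (GS G L S2).filter fun e => w ∈ e) := by
    intro e he
    by_cases hdj : Disjoint W e
    · exact mem_union_left _ (mem_filter.2 ⟨he, hdj⟩)
    · obtain ⟨w, hw, hwe⟩ := not_disjoint_iff.1 hdj
      exact mem_union_right _ (mem_biUnion.2 ⟨w, hw, mem_filter.2 ⟨he, hwe⟩⟩)
  have hwdeg : ∀ w ∈ W, (((GS G L S2).filter fun e => w ∈ e).card : ℝ) ≤ d := by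
    intro w hw
    by_cases hwL : w ∈ L
    · have h1 : (GS G L S2).filter (fun e => w ∈ e) = ∅ := by
        rw [filter_eq_empty_iff]
        intro e he hwe
        exact hWS2 w hw ((mem_filter.1 he).2 (mem_inter.2 ⟨hwe, hwL⟩))
      rw [h1, card_empty, Nat.cast_zero]
      exact hd0
    · refine le_trans ?_ (hL w hwL)
      have h1 : ((GS G L S2).filter fun e => w ∈ e).card ≤ deg G w := by
        refine card_le_card fun e he => ?_
        rw [mem_filter] at he
        exact mem_filter.2 ⟨(mem_filter.1 he.1).1, he.2⟩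
      exact_mod_cast h1
  have hG2c : x2 < (G2.card : ℝ) := by
    have h1 : ((GS G L S2).card : ℝ) ≤ G2.card +
        ∑ w ∈ W, (((GS G L S2).filter fun e => w ∈ e).card : ℝ) := by
      have h2 : (GS G L S2).card ≤ G2.card +
          ∑ w ∈ W, ((GS G L S2).filter fun e => w ∈ e).card :=
        (card_le_card hsub).trans ((card_union_le _ _).trans (Nat.add_le_add_left card_biUnion_le _))
      exact_mod_cast h2
    have h2 : ∑ w ∈ W, (((GS G L S2).filter fun e => w ∈ e).card : ℝ) ≤ W.card * d := by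
      refine (sum_le_sum hwdeg).trans (le_of_eq ?_)
      rw [sum_const, nsmul_eq_mul]
    have h3 : (W.card : ℝ) * d ≤ (verts F1).card * d := by
      refine mul_le_mul_of_nonneg_right ?_ hd0
      exact_mod_cast card_image_le
    linarith
  have hG2u : IsUniform r G2 := fun e he => hGSu S2 e (mem_filter.1 he).1
  obtain ⟨f2, hi2, he2⟩ := exists_copy hG2u hx2 hG2c
  refine hfree (join_copies hd (G1 := GS G L S1) (G2 := G2) (filter_subset _ _)
    ((filter_subset _ _).trans (filter_subset _ _)) f1 f2 hi1 he1 hi2 he2 ?_)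
  intro e he
  exact (mem_filter.1 he).2

/-! ### Asymptotics -/

lemma choose_pos_of_le {n r : ℕ} (h : r ≤ n) : (1 : ℝ) ≤ (n.choose (r - 1) : ℝ) := by
  have : 0 < n.choose (r - 1) := Nat.choose_pos (by omega)
  exact_mod_cast this

lemma choose_small {r : ℕ} (hr : 2 ≤ r) {c : ℝ} (hc : 0 < c) :
    ∃ n0 : ℕ, ∀ n, n0 ≤ n → (n.choose (r - 2) : ℝ) ≤ c * (n.choose (r - 1) : ℝ) := by
  obtain ⟨n0, hn0⟩ := exists_nat_ge ((r : ℝ) / c + r)
  refine ⟨n0, fun n hn => ?_⟩
  have h1 := Nat.choose_succ_right_eq n (r - 2)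
  have h2 : r - 2 + 1 = r - 1 := by omega
  rw [h2] at h1
  have hnr : (r : ℝ) / c + r ≤ n := hn0.trans (by exact_mod_cast hn)
  have hrc : (0 : ℝ) ≤ r / c := by positivity
  have hrn : r ≤ n := by
    have : (r : ℝ) ≤ n := by linarith
    exact_mod_cast this
  have h3 : ((n.choose (r - 1) : ℕ) : ℝ) * ((r - 1 : ℕ) : ℝ) =
      (n.choose (r - 2) : ℝ) * ((n - (r - 2) : ℕ) : ℝ) := by exact_mod_cast h1
  have h4 : ((n - (r - 2) : ℕ) : ℝ) = (n : ℝ) - ((r - 2 : ℕ) : ℝ) := Nat.cast_sub (by omega)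
  have h5 : ((r - 2 : ℕ) : ℝ) ≤ r := by exact_mod_cast Nat.sub_le _ _
  have h6 : ((r - 1 : ℕ) : ℝ) ≤ r := by exact_mod_cast Nat.sub_le _ _
  have hC2 : (0 : ℝ) ≤ (n.choose (r - 2) : ℝ) := Nat.cast_nonneg _
  have hC1 : (0 : ℝ) ≤ (n.choose (r - 1) : ℝ) := Nat.cast_nonneg _
  have hr0 : (0 : ℝ) < r := by
    have : 0 < r := by omega
    exact_mod_cast this
  have h7 : (r : ℝ) / c ≤ ((n - (r - 2) : ℕ) : ℝ) := by
    rw [h4]
    linarith
  have h8 : (n.choose (r - 2) : ℝ) * (r / c) ≤ (n.choose (r - 1) : ℝ) * r := by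
    calc (n.choose (r - 2) : ℝ) * (r / c)
        ≤ (n.choose (r - 2) : ℝ) * ((n - (r - 2) : ℕ) : ℝ) := mul_le_mul_of_nonneg_left h7 hC2
      _ = (n.choose (r - 1) : ℝ) * ((r - 1 : ℕ) : ℝ) := h3.symm
      _ ≤ (n.choose (r - 1) : ℝ) * r := mul_le_mul_of_nonneg_left h6 hC1
  have h9 : (n.choose (r - 2) : ℝ) * (r / c) * (c / r) ≤ (n.choose (r - 1) : ℝ) * r * (c / r) :=
    mul_le_mul_of_nonneg_right h8 (by positivity)
  have h10 : (n.choose (r - 2) : ℝ) * (r / c) * (c / r) = (n.choose (r - 2) : ℝ) := by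
    field_simp
  have h11 : (n.choose (r - 1) : ℝ) * r * (c / r) = c * (n.choose (r - 1) : ℝ) := by
    field_simp
  linarith

/-- Disjoint unions, upper bound. -/
theorem UB.union {r : ℕ} (hr : 2 ≤ r) {F1 F2 : Finset (Finset β)}
    (hd : Disjoint (verts F1) (verts F2)) {a1 a2 : ℝ} (ha1 : 0 ≤ a1) (ha2 : 0 ≤ a2)
    (h1 : UB r F1 a1) (h2 : UB r F2 a2) : UB r (F1 ∪ F2) (a1 + a2 + 1) := by
  classical
  intro ε hε
  set K := (verts F1).card with hK
  set η : ℝ := ε / (8 * (K + 1)) with hη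
  have hη0 : 0 < η := by positivity
  set M : ℝ := r * (a1 + a2 + 2 + ε) / η with hM
  have hM0 : 0 ≤ M := by positivity
  obtain ⟨n1, hn1⟩ := h1 (ε / 8) (by positivity)
  obtain ⟨n2, hn2⟩ := h2 (ε / 8) (by positivity)
  obtain ⟨n3, hn3⟩ := choose_small hr (c := ε / (8 * (M ^ 2 + 1))) (by positivity)
  refine ⟨max (max n1 n2) (max n3 r), fun n hn => ?_⟩
  have hnn1 : n1 ≤ n := le_trans (le_trans (le_max_left _ _) (le_max_left _ _)) hn
  have hnn2 : n2 ≤ n := le_trans (le_trans (le_max_right _ _) (le_max_left _ _)) hn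
  have hnn3 : n3 ≤ n := le_trans (le_trans (le_max_left _ _) (le_max_right _ _)) hn
  have hnr : r ≤ n := le_trans (le_trans (le_max_right _ _) (le_max_right _ _)) hn
  set C : ℝ := (n.choose (r - 1) : ℝ) with hC
  have hC1 : 1 ≤ C := choose_pos_of_le hnr
  have hC0 : 0 < C := by linarith
  have hb0 : 0 ≤ (a1 + a2 + 1 + ε) * C := by positivity
  have hex : ex r n (F1 ∪ F2) ≤ ⌊(a1 + a2 + 1 + ε) * C⌋₊ := by
    refine ex_le fun G hG hfree => ?_
    by_contra hcon
    rw [not_le] at hcon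
    -- trim
    obtain ⟨G', hG'G, hG'c⟩ := exists_subset_card_eq hcon
    have hG' : IsUniform r G' := fun e he => hG e (hG'G he)
    have hfree' : ¬ ContainsCopy (F1 ∪ F2) G' := by
      rintro ⟨f, hf, hfe⟩
      exact hfree ⟨f, hf, fun e he => hG'G (hfe e he)⟩
    have hlow : (a1 + a2 + 1 + ε) * C < G'.card := by
      rw [hG'c]
      push_cast
      exact Nat.lt_floor_add_one _
    have hupp : (G'.card : ℝ) ≤ (a1 + a2 + 2 + ε) * C := by
      rw [hG'c]
      push_cast
      have := Nat.floor_le hb0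
      linarith
    -- the vertices of large degree
    set L := (univ : Finset (Fin n)).filter (fun v => η * C < deg G' v) with hL
    have hLd : ∀ v, v ∉ L → (deg G' v : ℝ) ≤ η * C := by
      intro v hv
      by_contra hc
      exact hv (mem_filter.2 ⟨mem_univ _, not_le.1 hc⟩)
    have hLM : (L.card : ℝ) ≤ M := by
      have h3 : (L.card : ℝ) * (η * C) ≤ ∑ v ∈ L, (deg G' v : ℝ) := by
        rw [← nsmul_eq_mul, ← sum_const]
        exact sum_le_sum fun v hv => (mem_filter.1 hv).2.le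
      have h4 : (∑ v ∈ L, (deg G' v : ℝ)) ≤ r * G'.card := by
        have := sum_deg_le hG' L
        exact_mod_cast this
      have h5 : (L.card : ℝ) * (η * C) ≤ r * ((a1 + a2 + 2 + ε) * C) :=
        h3.trans (h4.trans (mul_le_mul_of_nonneg_left hupp (Nat.cast_nonneg _)))
      rw [hM, le_div_iff₀ hη0]
      have h6 : ((L.card : ℝ) * η) * C ≤ (r * (a1 + a2 + 2 + ε)) * C := by
        calc ((L.card : ℝ) * η) * C = (L.card : ℝ) * (η * C) := by ring
          _ ≤ r * ((a1 + a2 + 2 + ε) * C) := h5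
          _ = (r * (a1 + a2 + 2 + ε)) * C := by ring
      exact le_of_mul_le_mul_right h6 hC0
    have hcore := core hd hG' hfree' (x1 := (a1 + ε / 8) * C) (x2 := (a2 + ε / 8) * C)
      (d := η * C) (by positivity) (hn1 n hnn1) (hn2 n hnn2) L hLd
    have h3 : (L.card : ℝ) ^ 2 * (n.choose (r - 2) : ℝ) ≤ ε / 8 * C := by
      have h4 := hn3 n hnn3
      have h5 : (L.card : ℝ) ^ 2 ≤ M ^ 2 := pow_le_pow_left₀ (Nat.cast_nonneg _) hLM 2
      calc (L.card : ℝ) ^ 2 * (n.choose (r - 2) : ℝ)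
          ≤ M ^ 2 * (ε / (8 * (M ^ 2 + 1)) * C) :=
            mul_le_mul h5 h4 (Nat.cast_nonneg _) (by positivity)
        _ = (M ^ 2 / (M ^ 2 + 1)) * (ε / 8 * C) := by
            field_simp
        _ ≤ 1 * (ε / 8 * C) := by
            refine mul_le_mul_of_nonneg_right ?_ (by positivity)
            rw [div_le_one (by positivity)]
            linarith
        _ = ε / 8 * C := one_mul _
    have h4 : (K : ℝ) * (η * C) ≤ ε / 8 * C := by
      have h5 : (K : ℝ) * η ≤ ε / 8 := by
        rw [hη]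
        calc (K : ℝ) * (ε / (8 * (K + 1))) = (K / (K + 1)) * (ε / 8) := by field_simp
          _ ≤ 1 * (ε / 8) := by
              refine mul_le_mul_of_nonneg_right ?_ (by positivity)
              rw [div_le_one (by positivity)]
              linarith
          _ = ε / 8 := one_mul _
      calc (K : ℝ) * (η * C) = (K * η) * C := by ring
        _ ≤ ε / 8 * C := mul_le_mul_of_nonneg_right h5 hC0.le
    have h5 : (0 : ℝ) < ε * C := by positivity
    nlinarith
  have h3 : ((ex r n (F1 ∪ F2) : ℕ) : ℝ) ≤ (⌊(a1 + a2 + 1 + ε) * C⌋₊ : ℝ) := by exact_mod_cast hex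
  exact h3.trans (Nat.floor_le hb0)

/-! ### Stars -/

/-- A copy in a star lies in the star whose centres are the centres it uses. -/
lemma copy_star {r n : ℕ} {F : Finset (Finset β)} {L : Finset (Fin n)} (f : β → Fin n)
    (hi : Set.InjOn f (verts F : Set β)) (he : ∀ e ∈ F, e.image f ∈ AR.star r L) :
    ContainsCopy F (AR.star r (L ∩ (verts F).image f)) := by
  refine ⟨f, hi, fun e heF => ?_⟩
  have h1 := he e heF
  unfold AR.star at h1 ⊢
  rw [mem_filter] at h1 ⊢
  refine ⟨h1.1, ?_⟩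
  have h2 : e.image f ∩ (L ∩ (verts F).image f) = e.image f ∩ L := by
    have h3 : e.image f ⊆ (verts F).image f :=
      image_subset_image fun x hx => mem_verts.2 ⟨e, heF, hx⟩
    ext x
    simp only [mem_inter]
    constructor
    · rintro ⟨hx, hxL, _⟩
      exact ⟨hx, hxL⟩
    · rintro ⟨hx, hxL⟩
      exact ⟨hx, hxL, h3 hx⟩
  rw [h2]
  exact h1.2

/-- Disjoint unions, stars. -/
theorem SF.union {r : ℕ} {F1 F2 : Finset (Finset β)} (hd : Disjoint (verts F1) (verts F2))
    {l1 l2 : ℕ} (h1 : SF r F1 l1) (h2 : SF r F2 l2) : SF r (F1 ∪ F2) (l1 + l2 + 1) := by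
  classical
  rintro n L hL ⟨f, hi, he⟩
  have hv1 : verts F1 ⊆ verts (F1 ∪ F2) := by
    intro x hx
    obtain ⟨e, he, hxe⟩ := mem_verts.1 hx
    exact mem_verts.2 ⟨e, mem_union_left _ he, hxe⟩
  have hv2 : verts F2 ⊆ verts (F1 ∪ F2) := by
    intro x hx
    obtain ⟨e, he, hxe⟩ := mem_verts.1 hx
    exact mem_verts.2 ⟨e, mem_union_right _ he, hxe⟩
  have hc1 := copy_star f (hi.mono (coe_subset.2 hv1)) fun e heF => he e (mem_union_left _ heF)
  have hc2 := copy_star f (hi.mono (coe_subset.2 hv2)) fun e heF => he e (mem_union_right _ heF)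
  have h3 : l1 < (L ∩ (verts F1).image f).card := by
    by_contra hc
    exact h1 n _ (not_lt.1 hc) hc1
  have h4 : l2 < (L ∩ (verts F2).image f).card := by
    by_contra hc
    exact h2 n _ (not_lt.1 hc) hc2
  have h5 : Disjoint (L ∩ (verts F1).image f) (L ∩ (verts F2).image f) := by
    rw [disjoint_left]
    intro y hy1 hy2
    obtain ⟨x1, hx1, rfl⟩ := mem_image.1 (mem_inter.1 hy1).2
    obtain ⟨x2, hx2, hxx⟩ := mem_image.1 (mem_inter.1 hy2).2
    have h6 := hi (mem_coe.2 (hv2 hx2)) (mem_coe.2 (hv1 hx1)) hxx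
    rw [h6] at hx2
    exact (disjoint_left.1 hd) hx1 hx2
  have h6 : (L ∩ (verts F1).image f).card + (L ∩ (verts F2).image f).card ≤ L.card := by
    rw [← card_union_of_disjoint h5]
    exact card_le_card (union_subset inter_subset_left inter_subset_left)
  omega

/-! ### Expansions of shadows -/

lemma shadow_union (H1 H2 : Finset (Finset β)) :
    H5.shadow (H1 ∪ H2) = H5.shadow H1 ∪ H5.shadow H2 := by
  unfold H5.shadow
  rw [union_biUnion]

lemma expansion_union (k : ℕ) (T1 T2 : Finset (Finset β)) :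
    expansion k (T1 ∪ T2) = expansion k T1 ∪ expansion k T2 := by
  unfold expansion
  rw [image_union]

lemma verts_shadow (H : Finset (Finset β)) : ∀ s ∈ H5.shadow H, s ⊆ verts H := by
  intro s hs
  unfold H5.shadow at hs
  rw [mem_biUnion] at hs
  obtain ⟨e, he, hs⟩ := hs
  obtain ⟨x, _, rfl⟩ := mem_image.1 hs
  exact (erase_subset _ _).trans fun y hy => mem_verts.2 ⟨e, he, hy⟩

/-- Expansions of the shadows of disjoint hypergraphs are disjoint. -/
lemma disjoint_exp {r : ℕ} (hr : 2 ≤ r) {H1 H2 : Finset (Finset β)} (hu1 : IsUniform r H1)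
    (hd : Disjoint (verts H1) (verts H2)) :
    Disjoint (verts (expansion 1 (H5.shadow H1))) (verts (expansion 1 (H5.shadow H2))) := by
  rw [disjoint_left]
  intro x hx1 hx2
  obtain ⟨e1, he1, hxe1⟩ := mem_verts.1 hx1
  obtain ⟨e2, he2, hxe2⟩ := mem_verts.1 hx2
  obtain ⟨s1, hs1, rfl⟩ := mem_expansion_one.1 he1
  obtain ⟨s2, hs2, rfl⟩ := mem_expansion_one.1 he2
  have hv1 := verts_shadow H1 s1 hs1
  have hv2 := verts_shadow H2 s2 hs2
  rw [mem_insert, mem_image] at hxe1 hxe2
  rcases hxe1 with rfl | ⟨y, hy, rfl⟩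
  · rcases hxe2 with h | ⟨z, hz, h⟩
    · have h3 : s1 = s2 := congrArg Prod.fst (Sum.inr_injective h)
      have h4 : s1.Nonempty := by
        rw [← card_pos]
        have h5 : s1.card = r - 1 := by
          unfold H5.shadow at hs1
          rw [mem_biUnion] at hs1
          obtain ⟨e, he, hs⟩ := hs1
          obtain ⟨x, hx, rfl⟩ := mem_image.1 hs
          rw [card_erase_of_mem hx, hu1 e he]
        omega
      obtain ⟨y, hy⟩ := h4
      exact (disjoint_left.1 hd) (hv1 hy) (hv2 (h3 ▸ hy))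
    · exact absurd h (by simp)
  · rcases hxe2 with h | ⟨z, hz, h⟩
    · exact absurd h (by simp)
    · have h3 : z = y := Sum.inl_injective h
      rw [h3] at hz
      exact (disjoint_left.1 hd) (hv1 hy) (hv2 hz)

end MP_182bbb_co.DU
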